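import Pool.Agent.Q140.LIN.RankLe

/-!
# The exponents of nondeterministic decision
-/

set_option autoImplicit false

namespace Pool.Agent.Q140.LIN

open MvPolynomial Pool.Agent.W966.Mm Pool.Agent.W966.Vf Pool.Agent.W966.Vg
  Pool.Agent.H515R2.MMR Pool.Agent.Q140.VFY Pool.Agent.Q140.HYP Matrix

/-- The exponent of the nondeterministic decision of a family of sets over `ℂ`: the infimum of the
numbers `τ` such that, for some `c` and all `N`, some nondeterministic tree accepts exactly the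
inputs in `S N` with at most `c * N ^ τ` multiplications and divisions. -/
noncomputable def expo {κ : ℕ → Type} [∀ N, Fintype (κ N)] (S : ∀ N, Set (κ N → ℂ)) : ℝ :=
  sInf {τ : ℝ | ∃ c : ℝ, ∀ N : ℕ, ∃ (L : ℕ) (t : NTree ℂ (κ N)),
    (∀ x, t.Accepts x L ↔ x ∈ S N) ∧ (L : ℝ) ≤ c * (N : ℝ) ^ τ}

theorem expo_eq {κ : ℕ → Type} [∀ N, Fintype (κ N)] (S : ∀ N, Set (κ N → ℂ)) (d c : ℕ)
    (lower : ∀ N n : ℕ, 0 < n → d * n ≤ N → ∀ (t : NTree ℂ (κ N)) (L : ℕ),
      (∀ x, t.Accepts x L ↔ x ∈ S N) → (n : ℝ) ^ omega ≤ 2 * L)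
    (upper : ∀ N, ∃ t : NTree ℂ (κ N), ∀ x, t.Accepts x (rk (c * N)) ↔ x ∈ S N) :
    expo S = omega := by
  have hsub : {τ : ℝ | ∃ C : ℝ, ∀ n : ℕ, (rk n : ℝ) ≤ C * (n : ℝ) ^ τ} ⊆
      {τ : ℝ | ∃ c : ℝ, ∀ N : ℕ, ∃ (L : ℕ) (t : NTree ℂ (κ N)),
        (∀ x, t.Accepts x L ↔ x ∈ S N) ∧ (L : ℝ) ≤ c * (N : ℝ) ^ τ} := by
    rintro τ ⟨C, hC⟩
    refine ⟨C * (c : ℝ) ^ τ, fun n => ?_⟩
    obtain ⟨t, ht⟩ := upper n
    refine ⟨rk (c * n), t, ht, (hC (c * n)).trans (le_of_eq ?_)⟩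
    rw [Nat.cast_mul, Real.mul_rpow (Nat.cast_nonneg c) (Nat.cast_nonneg n), mul_assoc]
  have hlow : ∀ τ ∈ {τ : ℝ | ∃ c : ℝ, ∀ N : ℕ, ∃ (L : ℕ) (t : NTree ℂ (κ N)),
      (∀ x, t.Accepts x L ↔ x ∈ S N) ∧ (L : ℝ) ≤ c * (N : ℝ) ^ τ}, omega ≤ τ := by
    rintro τ ⟨c, hc⟩
    have key : ∀ n : ℕ, 0 < n → (n : ℝ) ^ omega ≤ 2 * c * (d : ℝ) ^ τ * (n : ℝ) ^ τ + 0 := by
      intro n hn
      obtain ⟨L, t, h1, h2⟩ := hc (d * n)
      have h3 := lower (d * n) n hn le_rfl t L h1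
      rw [Nat.cast_mul, Real.mul_rpow (Nat.cast_nonneg d) (Nat.cast_nonneg n)] at h2
      calc (n : ℝ) ^ omega ≤ 2 * L := h3
        _ ≤ 2 * (c * ((d : ℝ) ^ τ * (n : ℝ) ^ τ)) := by linarith
        _ = _ := by ring
    rcases le_or_gt 0 τ with hτ | hτ
    · exact omega_le_of_bound hτ fun N => ⟨N + 1, Nat.le_succ N, key (N + 1) (Nat.succ_pos N)⟩
    · have h0 : omega ≤ 0 := omega_le_of_bound le_rfl (c₁ := |2 * c * (d : ℝ) ^ τ|) (c₂ := 0)
        fun N => by
        refine ⟨N + 1, Nat.le_succ N, (key (N + 1) (Nat.succ_pos N)).trans ?_⟩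
        have h1 : (1 : ℝ) ≤ ((N + 1 : ℕ) : ℝ) := by exact_mod_cast Nat.succ_pos N
        have h2 : (((N + 1 : ℕ) : ℝ)) ^ τ ≤ 1 := Real.rpow_le_one_of_one_le_of_nonpos h1 hτ.le
        have h3 : 0 ≤ (((N + 1 : ℕ) : ℝ)) ^ τ := by positivity
        rw [Real.rpow_zero]
        have h4 : 2 * c * (d : ℝ) ^ τ * (((N + 1 : ℕ) : ℝ)) ^ τ ≤ |2 * c * (d : ℝ) ^ τ| * 1 :=
          (mul_le_mul_of_nonneg_right (le_abs_self _) h3).trans
            (mul_le_mul_of_nonneg_left h2 (abs_nonneg _))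
        linarith
      have := Pool.Agent.Y538.Par.two_le_omega
      linarith
  refine le_antisymm ?_ ?_
  · exact csInf_le_csInf ⟨omega, hlow⟩ omega_set_nonempty hsub
  · exact le_csInf (omega_set_nonempty.mono hsub) hlow

lemma aff_mat {ι : Type} {N : ℕ} [Fintype ι] {s : ℕ} (k : Fin s) :
    AffM (K := ℂ) (ι := Fin s × Fin N × Fin N) fun x => mat x k := fun _ _ => IsAff.coord _

lemma aff_one {N : ℕ} : AffM (K := ℂ) (ι := Fin N × Fin N) one := fun _ _ => IsAff.coord _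

theorem expo_inverse :
    expo (κ := fun N => Fin 2 × Fin N × Fin N) (fun _ => {x | mat x 0 * mat x 1 = 1}) = omega := by
  refine expo_eq _ 3 1 (fun N n hn h t L ht => inverse_lower hn h t L ht) fun N => ?_
  rw [one_mul]
  exact mul_tree (hasRank_rk N) (fun x => mat x 0) (fun x => mat x 1) (fun _ => 1)
    (fun _ _ => IsAff.coord _) (fun _ _ => IsAff.coord _) (AffM.const 1)

theorem expo_square :
    expo (κ := fun N => Fin 2 × Fin N × Fin N) (fun _ => {x | mat x 1 = mat x 0 ^ 2}) =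
      omega := by
  refine expo_eq _ 3 1 (fun N n hn h t L ht => square_lower hn h t L ht) fun N => ?_
  rw [one_mul]
  obtain ⟨t, ht⟩ := mul_tree (hasRank_rk N) (fun x : Fin 2 × Fin N × Fin N → ℂ => mat x 0)
    (fun x => mat x 0) (fun x => mat x 1)
    (fun _ _ => IsAff.coord _) (fun _ _ => IsAff.coord _) (fun _ _ => IsAff.coord _)
  refine ⟨t, fun x => ?_⟩
  rw [ht, ← sq]
  exact eq_comm

theorem expo_idempotent :
    expo (κ := fun N => Fin N × Fin N) (fun _ => {x | one x ^ 2 = one x}) = omega := by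
  refine expo_eq _ 3 1 (fun N n hn h t L ht => idempotent_lower hn h t L ht)
    fun N => ?_
  rw [one_mul]
  obtain ⟨t, ht⟩ := mul_tree (hasRank_rk N) (fun x : Fin N × Fin N → ℂ => one x)
    (fun x => one x) (fun x => one x) aff_one aff_one aff_one
  refine ⟨t, fun x => ?_⟩
  rw [ht, ← sq]
  rfl

theorem expo_involution :
    expo (κ := fun N => Fin N × Fin N) (fun _ => {x | one x ^ 2 = 1}) = omega := by
  refine expo_eq _ 3 1 (fun N n hn h t L ht => involution_lower hn h t L ht)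
    fun N => ?_
  rw [one_mul]
  obtain ⟨t, ht⟩ := mul_tree (hasRank_rk N) (fun x : Fin N × Fin N → ℂ => one x)
    (fun x => one x) (fun x => 1) aff_one aff_one (AffM.const 1)
  refine ⟨t, fun x => ?_⟩
  rw [ht, ← sq]
  rfl

theorem commuting_tree (N : ℕ) : ∃ t : NTree ℂ (Fin 2 × Fin N × Fin N), ∀ x,
    t.Accepts x (rk (2 * N)) ↔ mat x 0 * mat x 1 = mat x 1 * mat x 0 := by
  have hc : Fintype.card (Fin N ⊕ Fin N) = Fintype.card (Fin (2 * N)) := by
    simp only [Fintype.card_sum, Fintype.card_fin]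
    omega
  let e := (Fintype.equivOfCardEq hc).symm
  obtain ⟨t, ht⟩ := mul_tree (ι := Fin 2 × Fin N × Fin N) (hasRank_rk (2 * N))
    (fun x => (Matrix.fromBlocks (mat x 0) (mat x 1) 0 0).submatrix e e)
    (fun x => (Matrix.fromBlocks (mat x 1) 0 ((-1 : ℂ) • mat x 0) 0).submatrix e e) (fun _ => 0)
    ((AffM.fromBlocks (fun _ _ => IsAff.coord _) (fun _ _ => IsAff.coord _) (AffM.const 0)
      (AffM.const 0)).submatrix e e)
    ((AffM.fromBlocks (fun _ _ => IsAff.coord _) (AffM.const 0)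
      (AffM.smul (fun _ _ => IsAff.coord _) _) (AffM.const 0)).submatrix e e) (AffM.const 0)
  refine ⟨t, fun x => ?_⟩
  rw [ht, Matrix.submatrix_mul_equiv, Matrix.fromBlocks_multiply]
  simp only [Matrix.mul_zero, Matrix.zero_mul, add_zero, neg_smul, one_smul, Matrix.mul_neg]
  rw [← sub_eq_add_neg]
  constructor
  · intro h
    have h1 : Matrix.fromBlocks (mat x 0 * mat x 1 - mat x 1 * mat x 0) 0 0 0 =
        (0 : Matrix (Fin N ⊕ Fin N) (Fin N ⊕ Fin N) ℂ) := by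
      ext i j
      have := congrFun (congrFun h (e.symm i)) (e.symm j)
      simpa using this
    rw [← Matrix.fromBlocks_zero, Matrix.fromBlocks_inj] at h1
    exact sub_eq_zero.mp h1.1
  · intro h
    rw [sub_eq_zero.mpr h, neg_zero, add_zero, Matrix.fromBlocks_zero]
    rfl

theorem expo_commuting :
    expo (κ := fun N => Fin 2 × Fin N × Fin N)
      (fun _ => {x | mat x 0 * mat x 1 = mat x 1 * mat x 0}) = omega :=
  expo_eq _ 3 2 (fun N n hn h t L ht => commuting_lower hn h t L ht) commuting_tree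

theorem expo_rank :
    expo (κ := fun N => Fin N × Fin N) (fun N => {x | (one x).rank ≤ N / 2}) = omega := by
  refine expo_eq _ 2 1 (fun N n hn h t L ht =>
    rank_lower (r := N / 2) hn (by omega) (by omega) t L ht) fun N => ?_
  rw [one_mul]
  exact rank_tree (by omega)

end Pool.Agent.Q140.LIN
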