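import Pool.Agent.Q140.LIN.Upper

/-!
# Matrices of small rank
-/

set_option autoImplicit false

namespace Pool.Agent.Q140.LIN

open MvPolynomial Pool.Agent.W966.Mm Pool.Agent.W966.Vf Pool.Agent.W966.Vg
  Pool.Agent.H515R2.MMR Pool.Agent.Q140.VFY Pool.Agent.Q140.HYP Matrix

section block

variable {K : Type} [Field K] {n a b : ℕ}

/-- the block matrices -/
def R (A B C : Matrix (Fin n) (Fin n) K) :
    Matrix ((Fin n ⊕ Fin n) ⊕ (Fin a ⊕ Fin b)) ((Fin n ⊕ Fin n) ⊕ (Fin a ⊕ Fin b)) K :=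
  Matrix.fromBlocks (Matrix.fromBlocks 1 B A C) 0 0 (Matrix.fromBlocks 1 0 0 0)

lemma R_rank_le (A B : Matrix (Fin n) (Fin n) K) :
    (R A B (A * B) : Matrix ((Fin n ⊕ Fin n) ⊕ (Fin a ⊕ Fin b)) _ K).rank ≤ n + a := by
  have h1 : (R A B (A * B) : Matrix ((Fin n ⊕ Fin n) ⊕ (Fin a ⊕ Fin b)) _ K) =
      (Matrix.fromBlocks (Matrix.fromRows (1 : Matrix (Fin n) (Fin n) K) A) 0 0
        (Matrix.fromRows (1 : Matrix (Fin a) (Fin a) K) (0 : Matrix (Fin b) (Fin a) K))) *
      (Matrix.fromBlocks (Matrix.fromCols (1 : Matrix (Fin n) (Fin n) K) B) 0 0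
        (Matrix.fromCols (1 : Matrix (Fin a) (Fin a) K) (0 : Matrix (Fin a) (Fin b) K))) := by
    rw [Matrix.fromBlocks_multiply]
    simp only [Matrix.fromRows_mul_fromCols, Matrix.mul_zero, Matrix.zero_mul, add_zero, zero_add,
      Matrix.one_mul, Matrix.mul_one]
    rfl
  rw [h1]
  refine (Matrix.rank_mul_le_left _ _).trans ((Matrix.rank_le_card_width _).trans ?_)
  simp

lemma R_rank_gt {A B C : Matrix (Fin n) (Fin n) K} (h : C ≠ A * B) :
    n + a < (R A B C : Matrix ((Fin n ⊕ Fin n) ⊕ (Fin a ⊕ Fin b)) _ K).rank := by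
  obtain ⟨i, j, hij⟩ : ∃ i j, C i j ≠ (A * B) i j := by
    by_contra hcon
    push Not at hcon
    exact h (Matrix.ext hcon)
  let f : Fin n → (Fin n ⊕ Fin 1) ⊕ Fin a → (Fin n ⊕ Fin n) ⊕ (Fin a ⊕ Fin b) := fun i u =>
    Sum.elim (Sum.elim (fun k => Sum.inl (Sum.inl k)) fun _ => Sum.inl (Sum.inr i))
      (fun s => Sum.inr (Sum.inl s)) u
  have h1 : (R A B C).submatrix (f i) (f j) = Matrix.fromBlocks (Matrix.fromBlocks 1
      (Matrix.of fun k (_ : Fin 1) => B k j) (Matrix.of fun (_ : Fin 1) k => A i k)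
      (Matrix.of fun _ _ => C i j)) 0 0 1 := by
    ext u v
    rcases u with (u | u) | u <;> rcases v with (v | v) | v <;> rfl
  have h2 : ((R A B C).submatrix (f i) (f j)).det = C i j - (A * B) i j := by
    rw [h1, Matrix.det_fromBlocks_zero₂₁, Matrix.det_one, mul_one, Matrix.det_fromBlocks_one₁₁,
      Matrix.det_fin_one, Matrix.sub_apply]
    rfl
  have h3 : ((R A B C).submatrix (f i) (f j)).rank = _ :=
    Matrix.rank_of_det_ne_zero (by rw [h2]; exact sub_ne_zero.mpr hij)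
  have h4 := Matrix.rank_submatrix_le (R A B C : Matrix ((Fin n ⊕ Fin n) ⊕ (Fin a ⊕ Fin b)) _ K)
    (f i) (f j)
  rw [h3] at h4
  simp only [Fintype.card_sum, Fintype.card_fin] at h4
  omega

lemma R_rank (A B C : Matrix (Fin n) (Fin n) K) :
    (R A B C : Matrix ((Fin n ⊕ Fin n) ⊕ (Fin a ⊕ Fin b)) _ K).rank ≤ n + a ↔ C = A * B := by
  constructor
  · intro h
    by_contra hcon
    exact absurd h (not_le.mpr (R_rank_gt hcon))
  · rintro rfl
    exact R_rank_le A B

end block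

section lower

variable {K : Type} [Field K] [IsAlgClosed K] [CharZero K] {n r N : ℕ}

/-- **Matrices of rank at most `r`.** -/
theorem rank_lower (hn : 0 < n) (h1 : n ≤ r) (h2 : n + r ≤ N) (t : NTree K (Fin N × Fin N))
    (L : ℕ) (ht : ∀ x, t.Accepts x L ↔ (one x).rank ≤ r) : (n : ℝ) ^ omega ≤ 2 * L := by
  have hc : Fintype.card ((Fin n ⊕ Fin n) ⊕ (Fin (r - n) ⊕ Fin (N - n - r))) =
      Fintype.card (Fin N) := by
    simp only [Fintype.card_sum, Fintype.card_fin]
    omega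
  let e := (Fintype.equivOfCardEq hc).symm
  refine single_bound hn (fun X => X.rank ≤ r)
    (fun x => (R (a := r - n) (b := N - n - r) (mA x) (mB x) (mC x)).submatrix e e)
    ((((AffM.const 1).fromBlocks aff_mB aff_mA aff_mC).fromBlocks (AffM.const 0) (AffM.const 0)
      (AffM.const (Matrix.fromBlocks 1 0 0 0))).submatrix e e) (fun x => ?_) t L ht
  show ((R (mA x) (mB x) (mC x)).submatrix e e).rank ≤ r ↔ _
  rw [Matrix.rank_submatrix, ← R_rank (a := r - n) (b := N - n - r), show n + (r - n) = r by omega]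

end lower

section factor

variable {K : Type} [Field K] {N r : ℕ}

/-- the rectangular identity matrix -/
def E (K : Type) [Field K] (a b : ℕ) : Matrix (Fin a) (Fin b) K :=
  Matrix.of fun i j => if (i : ℕ) = j then 1 else 0

lemma E_mul {a b : ℕ} (h : a ≤ b) : E K a b * (E K a b)ᵀ = 1 := by
  ext i j
  rw [Matrix.mul_apply, Finset.sum_eq_single (Fin.castLE h i)]
  · simp only [E, Matrix.of_apply, Fin.val_castLE, if_true, Matrix.transpose_apply, one_mul,
      Matrix.one_apply, Fin.ext_iff]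
    by_cases h1 : (j : ℕ) = i
    · rw [if_pos h1, if_pos h1.symm]
    · rw [if_neg h1, if_neg (Ne.symm h1)]
  · intro k _ hk
    have : ¬ (i : ℕ) = k := fun h' => hk (Fin.ext h'.symm)
    simp only [E, Matrix.of_apply, if_neg this, zero_mul]
  · intro h'; exact absurd (Finset.mem_univ _) h'

lemma rank_factor (X : Matrix (Fin N) (Fin N) K) (h : X.rank ≤ r) :
    ∃ (P : Matrix (Fin N) (Fin r) K) (Q : Matrix (Fin r) (Fin N) K), X = P * Q := by
  obtain ⟨V, U, e, hV, hU, h1⟩ := Matrix.exists_rank_normal_form X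
  have hD : (Matrix.fromBlocks (1 : Matrix (Fin X.rank) (Fin X.rank) K) 0 0 0).submatrix e e =
      (Matrix.fromRows (1 : Matrix (Fin X.rank) (Fin X.rank) K) 0).submatrix e id *
      (Matrix.fromCols (1 : Matrix (Fin X.rank) (Fin X.rank) K) 0).submatrix id e := by
    rw [← Matrix.submatrix_mul _ _ e id e Function.bijective_id, Matrix.fromRows_mul_fromCols]
    simp
  have hVd := (Matrix.isUnit_iff_isUnit_det V).mp hV
  have hUd := (Matrix.isUnit_iff_isUnit_det U).mp hU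
  have hX : X = V⁻¹ * (V * X * U) * U⁻¹ := by
    rw [Matrix.mul_assoc V X U, ← Matrix.mul_assoc V⁻¹, Matrix.nonsing_inv_mul _ hVd,
      Matrix.one_mul, Matrix.mul_assoc, Matrix.mul_nonsing_inv _ hUd, Matrix.mul_one]
  refine ⟨V⁻¹ * (Matrix.fromRows (1 : Matrix (Fin X.rank) (Fin X.rank) K) 0).submatrix e id *
    E K X.rank r, (E K X.rank r)ᵀ * ((Matrix.fromCols (1 : Matrix (Fin X.rank) (Fin X.rank) K)
      0).submatrix id e * U⁻¹), ?_⟩
  conv_lhs => rw [hX, h1, hD]
  simp only [Matrix.mul_assoc]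
  rw [← Matrix.mul_assoc (E K X.rank r), E_mul h, Matrix.one_mul]

lemma rank_le_iff (h : r ≤ N) (X : Matrix (Fin N) (Fin N) K) : X.rank ≤ r ↔
    ∃ (A : Matrix (Fin N) (Fin r) K) (B : Matrix (Fin N) (Fin N) K), (A * E K r N) * B = X := by
  constructor
  · intro hX
    obtain ⟨P, Q, hPQ⟩ := rank_factor X hX
    refine ⟨P, (E K r N)ᵀ * Q, ?_⟩
    rw [Matrix.mul_assoc, ← Matrix.mul_assoc (E K r N), E_mul h, Matrix.one_mul, hPQ]
  · rintro ⟨A, B, rfl⟩
    rw [Matrix.mul_assoc]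
    exact (Matrix.rank_mul_le_left _ _).trans ((Matrix.rank_le_card_width _).trans (by simp))

end factor

section upper

variable {N r : ℕ}

theorem rank_tree (h : r ≤ N) : ∃ t : NTree ℂ (Fin N × Fin N), ∀ x,
    t.Accepts x (rk N) ↔ (one x).rank ≤ r := by
  let m := Fintype.card ((Fin N × Fin r) ⊕ (Fin N × Fin N))
  let e : (Fin N × Fin r) ⊕ (Fin N × Fin N) ≃ Fin m := Fintype.equivFin _
  obtain ⟨t, ht⟩ := mul_tree (ι := (Fin N × Fin N) ⊕ Fin m) (hasRank_rk N)
    (fun z => (Matrix.of fun i j => z (Sum.inr (e (Sum.inl (i, j))))) * E ℂ r N)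
    (fun z => Matrix.of fun i j => z (Sum.inr (e (Sum.inr (i, j)))))
    (fun z => Matrix.of fun i j => z (Sum.inl (i, j)))
    (AffM.mulC (fun i j => IsAff.coord _) _) (fun i j => IsAff.coord _) (fun i j => IsAff.coord _)
  obtain ⟨t', ht'⟩ := guess_tree t (rk N)
  refine ⟨t', fun x => ?_⟩
  rw [ht', rank_le_iff h]
  simp only [ht, Sum.elim_inr, Sum.elim_inl]
  constructor
  · rintro ⟨y, hy⟩
    exact ⟨_, _, hy⟩
  · rintro ⟨A, B, hAB⟩
    refine ⟨fun s => Sum.elim (fun p => A p.1 p.2) (fun p => B p.1 p.2) (e.symm s), ?_⟩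
    simp only [Equiv.symm_apply_apply, Sum.elim_inl, Sum.elim_inr]
    exact hAB

end upper

end Pool.Agent.Q140.LIN
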