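import Pool.Agent.Q140.LIN.Subst
import Pool.Agent.Q140.HYP.Upper

/-!
# Nondeterministic decision of properties of matrices
-/

set_option autoImplicit false

namespace Pool.Agent.Q140.LIN

open MvPolynomial Pool.Agent.W966.Mm Pool.Agent.W966.Vf Pool.Agent.W966.Vg
  Pool.Agent.H515R2.MMR Pool.Agent.Q140.VFY Pool.Agent.Q140.HYP Matrix

/-- The matrix with the given entries. -/
def one {K : Type} {N : ℕ} (x : Fin N × Fin N → K) : Matrix (Fin N) (Fin N) K :=
  Matrix.of fun i j => x (i, j)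

section general

variable {K : Type} [Field K] [IsAlgClosed K] [CharZero K] {n N : ℕ}

theorem pair_bound (hn : 0 < n) (S : Matrix (Fin N) (Fin N) K → Matrix (Fin N) (Fin N) K → Prop)
    (F G : (In3 n → K) → Matrix (Fin N) (Fin N) K) (hF : AffM F) (hG : AffM G)
    (h : ∀ x, S (F x) (G x) ↔ mC x = mA x * mB x) (t : NTree K (Fin 2 × Fin N × Fin N)) (L : ℕ)
    (ht : ∀ x, t.Accepts x L ↔ S (mat x 0) (mat x 1)) : (n : ℝ) ^ omega ≤ 2 * L := by
  refine set_bound hn {x | S (mat x 0) (mat x 1)} t L ht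
    (fun x k => if k.1 = 0 then F x k.2.1 k.2.2 else G x k.2.1 k.2.2) (fun k => ?_) (fun x => ?_)
  · by_cases hk : k.1 = 0
    · simp only [if_pos hk]; exact hF _ _
    · simp only [if_neg hk]; exact hG _ _
  · rw [← h x]
    have h0 : mat (fun k : Fin 2 × Fin N × Fin N => if k.1 = 0 then F x k.2.1 k.2.2 else
        G x k.2.1 k.2.2) 0 = F x := by
      funext i j
      simp [mat]
    have h1 : mat (fun k : Fin 2 × Fin N × Fin N => if k.1 = 0 then F x k.2.1 k.2.2 else
        G x k.2.1 k.2.2) 1 = G x := by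
      funext i j
      simp [mat]
    show S _ _ ↔ _
    rw [h0, h1]

theorem single_bound (hn : 0 < n) (S : Matrix (Fin N) (Fin N) K → Prop)
    (F : (In3 n → K) → Matrix (Fin N) (Fin N) K) (hF : AffM F)
    (h : ∀ x, S (F x) ↔ mC x = mA x * mB x) (t : NTree K (Fin N × Fin N)) (L : ℕ)
    (ht : ∀ x, t.Accepts x L ↔ S (one x)) : (n : ℝ) ^ omega ≤ 2 * L :=
  set_bound hn {x | S (one x)} t L ht (fun x k => F x k.1 k.2) (fun k => hF _ _) fun x => h x

end general

section blocks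

variable {K : Type} [Field K] {n b : ℕ}

/-- the index set of the block matrices -/
abbrev J (n b : ℕ) : Type := (Fin n ⊕ Fin n) ⊕ (Fin n ⊕ Fin b)

/-- the block matrices -/
def T (D A B C : Matrix (Fin n) (Fin n) K) : Matrix (J n b) (J n b) K :=
  Matrix.fromBlocks (Matrix.fromBlocks 1 A 0 D) (Matrix.fromBlocks C 0 B 0) 0 1

lemma T_mul (D A B C D' A' B' C' : Matrix (Fin n) (Fin n) K) :
    (T D A B C : Matrix (J n b) (J n b) K) * T D' A' B' C' =
      T (D * D') (A' + A * D') (D * B' + B) (C' + A * B' + C) := by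
  unfold T
  rw [Matrix.fromBlocks_multiply, Matrix.fromBlocks_multiply, Matrix.fromBlocks_multiply]
  simp only [Matrix.mul_zero, Matrix.zero_mul, Matrix.mul_one, Matrix.one_mul, add_zero, zero_add,
    Matrix.fromBlocks_add]

lemma T_inj {D A B C D' A' B' C' : Matrix (Fin n) (Fin n) K} :
    (T D A B C : Matrix (J n b) (J n b) K) = T D' A' B' C' ↔
      D = D' ∧ A = A' ∧ B = B' ∧ C = C' := by
  unfold T
  rw [Matrix.fromBlocks_inj, Matrix.fromBlocks_inj, Matrix.fromBlocks_inj]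
  tauto

lemma T_one : (T 1 0 0 0 : Matrix (J n b) (J n b) K) = 1 := by
  unfold T
  rw [Matrix.fromBlocks_one, Matrix.fromBlocks_zero, Matrix.fromBlocks_one]

end blocks

section lower

variable {K : Type} [Field K] {n N : ℕ}

/-- the relabeling of the indices -/
noncomputable def rl (h : 3 * n ≤ N) : J n (N - 3 * n) ≃ Fin N :=
  Fintype.equivOfCardEq (by
    simp only [Fintype.card_sum, Fintype.card_fin]
    omega)

/-- the block matrices, relabeled -/
noncomputable def TN (h : 3 * n ≤ N) (D A B C : Matrix (Fin n) (Fin n) K) :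
    Matrix (Fin N) (Fin N) K :=
  (T D A B C : Matrix (J n (N - 3 * n)) (J n (N - 3 * n)) K).submatrix (rl h).symm (rl h).symm

lemma TN_mul (h : 3 * n ≤ N) (D A B C D' A' B' C' : Matrix (Fin n) (Fin n) K) :
    TN h D A B C * TN h D' A' B' C' =
      TN h (D * D') (A' + A * D') (D * B' + B) (C' + A * B' + C) := by
  unfold TN
  rw [Matrix.submatrix_mul_equiv, T_mul]

lemma TN_inj (h : 3 * n ≤ N) {D A B C D' A' B' C' : Matrix (Fin n) (Fin n) K} :
    TN h D A B C = TN h D' A' B' C' ↔ D = D' ∧ A = A' ∧ B = B' ∧ C = C' := by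
  unfold TN
  rw [← T_inj (b := N - 3 * n)]
  exact (Matrix.reindex (rl h) (rl h)).injective.eq_iff

lemma TN_one (h : 3 * n ≤ N) : TN h (1 : Matrix (Fin n) (Fin n) K) 0 0 0 = 1 := by
  unfold TN
  rw [T_one, Matrix.submatrix_one_equiv]

lemma TN_eq_one (h : 3 * n ≤ N) {D A B C : Matrix (Fin n) (Fin n) K} :
    TN h D A B C = 1 ↔ D = 1 ∧ A = 0 ∧ B = 0 ∧ C = 0 := by
  rw [← TN_one h, TN_inj]

lemma aff_TN (h : 3 * n ≤ N) {D A B C : (In3 n → K) → Matrix (Fin n) (Fin n) K} (hD : AffM D)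
    (hA : AffM A) (hB : AffM B) (hC : AffM C) : AffM fun x => TN h (D x) (A x) (B x) (C x) :=
  (((AffM.const 1).fromBlocks hA (AffM.const 0) hD).fromBlocks
    (hC.fromBlocks (AffM.const 0) hB (AffM.const 0)) (AffM.const 0) (AffM.const 1)).submatrix _ _

variable [IsAlgClosed K] [CharZero K]

/-- **Pairs of inverse matrices.** -/
theorem inverse_lower (hn : 0 < n) (h : 3 * n ≤ N) (t : NTree K (Fin 2 × Fin N × Fin N)) (L : ℕ)
    (ht : ∀ x, t.Accepts x L ↔ mat x 0 * mat x 1 = 1) : (n : ℝ) ^ omega ≤ 2 * L := by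
  refine pair_bound hn (fun X Y => X * Y = 1)
    (fun x => TN h 1 (mA x) (mB x) 0) (fun x => TN h 1 ((-1 : K) • mA x) ((-1 : K) • mB x) (mC x))
    (aff_TN h (AffM.const 1) aff_mA aff_mB (AffM.const 0))
    (aff_TN h (AffM.const 1) (aff_mA.smul _) (aff_mB.smul _) aff_mC) (fun x => ?_) t L ht
  rw [TN_mul, TN_eq_one]
  simp only [mul_one, one_mul, neg_smul, one_smul, neg_add_cancel, true_and, add_zero, mul_neg]
  rw [← sub_eq_add_neg, sub_eq_zero]

/-- **Commuting pairs.** -/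
theorem commuting_lower (hn : 0 < n) (h : 3 * n ≤ N) (t : NTree K (Fin 2 × Fin N × Fin N))
    (L : ℕ) (ht : ∀ x, t.Accepts x L ↔ mat x 0 * mat x 1 = mat x 1 * mat x 0) :
    (n : ℝ) ^ omega ≤ 2 * L := by
  refine pair_bound hn (fun X Y => X * Y = Y * X)
    (fun x => TN h 1 (mA x) (mC x) 0) (fun x => TN h 1 1 (mB x) 0)
    (aff_TN h (AffM.const 1) aff_mA aff_mC (AffM.const 0))
    (aff_TN h (AffM.const 1) (AffM.const 1) aff_mB (AffM.const 0)) (fun x => ?_) t L ht
  rw [TN_mul, TN_mul, TN_inj]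
  simp only [mul_one, one_mul, add_zero, zero_add, add_comm (1 : Matrix (Fin n) (Fin n) K),
    add_comm (mB x), true_and]
  exact eq_comm

/-- **Squares.** -/
theorem square_lower (hn : 0 < n) (h : 3 * n ≤ N) (t : NTree K (Fin 2 × Fin N × Fin N)) (L : ℕ)
    (ht : ∀ x, t.Accepts x L ↔ mat x 1 = mat x 0 ^ 2) : (n : ℝ) ^ omega ≤ 2 * L := by
  refine pair_bound hn (fun X Y => Y = X ^ 2)
    (fun x => TN h 1 (mA x) (mB x) 0) (fun x => TN h 1 ((2 : K) • mA x) ((2 : K) • mB x) (mC x))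
    (aff_TN h (AffM.const 1) aff_mA aff_mB (AffM.const 0))
    (aff_TN h (AffM.const 1) (aff_mA.smul _) (aff_mB.smul _) aff_mC) (fun x => ?_) t L ht
  rw [sq, TN_mul, TN_inj]
  simp only [mul_one, one_mul, two_smul, true_and, add_zero, zero_add]

/-- **Idempotents.** -/
theorem idempotent_lower (hn : 0 < n) (h : 3 * n ≤ N) (t : NTree K (Fin N × Fin N)) (L : ℕ)
    (ht : ∀ x, t.Accepts x L ↔ one x ^ 2 = one x) : (n : ℝ) ^ omega ≤ 2 * L := by
  refine single_bound hn (fun X => X ^ 2 = X)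
    (fun x => TN h 0 ((-1 : K) • mA x) (mB x) (mC x))
    (aff_TN h (AffM.const 0) (aff_mA.smul _) aff_mB aff_mC) (fun x => ?_) t L ht
  rw [sq, TN_mul, TN_inj]
  simp only [mul_zero, zero_mul, add_zero, zero_add, true_and, neg_smul, one_smul, neg_mul]
  rw [add_eq_right, ← sub_eq_add_neg, sub_eq_zero]

/-- **Involutions.** -/
theorem involution_lower (hn : 0 < n) (h : 3 * n ≤ N) (t : NTree K (Fin N × Fin N)) (L : ℕ)
    (ht : ∀ x, t.Accepts x L ↔ one x ^ 2 = 1) : (n : ℝ) ^ omega ≤ 2 * L := by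
  refine single_bound hn (fun X => X ^ 2 = 1)
    (fun x => TN h (-1) ((-2 : K) • mA x) (mB x) (mC x))
    (aff_TN h (AffM.const _) (aff_mA.smul _) aff_mB aff_mC) (fun x => ?_) t L ht
  rw [sq, TN_mul, TN_eq_one]
  simp only [mul_neg, mul_one, neg_mul, one_mul, neg_neg, add_neg_cancel, neg_add_cancel, true_and]
  have e : mC x + (-2 : K) • mA x * mB x + mC x = (2 : K) • (mC x - mA x * mB x) := by
    rw [smul_sub, two_smul, Matrix.smul_mul, neg_smul]
    abel
  rw [e, smul_eq_zero, sub_eq_zero]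
  constructor
  · rintro (h2 | h2)
    · exact absurd h2 two_ne_zero
    · exact h2
  · exact Or.inr

end lower

end Pool.Agent.Q140.LIN
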