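import Pool.Agent.Q140.VFY.Main

/-!
# Affine substitutions in nondeterministic computation trees
-/

set_option autoImplicit false

namespace Pool.Agent.Q140.LIN

open MvPolynomial Pool.Agent.W966.Mm Pool.Agent.W966.Vf Pool.Agent.W966.Vg
  Pool.Agent.H515R2.MMR Pool.Agent.Q140.VFY

section subst

variable {K κ ι : Type} [Field K] [Fintype κ] [Fintype ι]

/-- the point with affine coordinates -/
def app (φ : κ → K × (ι → K)) (x : ι → K) : κ → K := fun k => (φ k).1 + ∑ i, (φ k).2 i * x i

/-- substitution in a linear combination -/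
def subLF (φ : κ → K × (ι → K)) (f : LF K κ) : LF K ι :=
  ⟨f.c + ∑ k, f.x k * (φ k).1, fun i => ∑ k, f.x k * (φ k).2 i, f.r⟩

lemma subLF_val (φ : κ → K × (ι → K)) (f : LF K κ) (x : ι → K) (l : ℕ) (g : ℕ → K) :
    (subLF φ f).val x l g = f.val (app φ x) l g := by
  unfold LF.val subLF app
  simp only [Algebra.algebraMap_self, RingHom.id_apply, mul_add, Finset.sum_add_distrib,
    Finset.mul_sum, Finset.sum_mul]
  rw [Finset.sum_comm (s := (Finset.univ : Finset ι))]
  simp only [mul_assoc]
  ring

/-- substitution in a tree -/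
def subT (φ : κ → K × (ι → K)) : NTree K κ → NTree K ι
  | .accept => .accept
  | .reject => .reject
  | .mul f h next => .mul (subLF φ f) (subLF φ h) (subT φ next)
  | .div f h next => .div (subLF φ f) (subLF φ h) (subT φ next)
  | .guess next => .guess (subT φ next)
  | .test f yes no => .test (subLF φ f) (subT φ yes) (subT φ no)
  | .choose m next => .choose m fun i => subT φ (next i)

lemma subT_acc (φ : κ → K × (ι → K)) (x : ι → K) (t : NTree K κ) :
    ∀ (l : ℕ) (g : ℕ → K) (L : ℕ), (subT φ t).Acc x l g L ↔ t.Acc (app φ x) l g L := by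
  induction t with
  | accept => intro l g L; exact Iff.rfl
  | reject => intro l g L; exact Iff.rfl
  | mul f h next ih =>
    intro l g L
    simp only [subT, NTree.Acc, subLF_val, ih]
  | div f h next ih =>
    intro l g L
    simp only [subT, NTree.Acc, subLF_val, ih]
  | guess next ih =>
    intro l g L
    simp only [subT, NTree.Acc, ih]
  | test f yes no ihy ihn =>
    intro l g L
    simp only [subT, NTree.Acc, subLF_val, ihy, ihn]
  | choose m next ih =>
    intro l g L
    simp only [subT, NTree.Acc, ih]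

lemma subT_accepts (φ : κ → K × (ι → K)) (x : ι → K) (t : NTree K κ) (L : ℕ) :
    (subT φ t).Accepts x L ↔ t.Accepts (app φ x) L := subT_acc φ x t 0 0 L

/-- affine functions -/
def IsAff (f : (ι → K) → K) : Prop := ∃ (c : K) (u : ι → K), ∀ x, f x = c + ∑ i, u i * x i

lemma IsAff.const (c : K) : IsAff fun _ : ι → K => c := ⟨c, 0, fun x => by simp⟩

lemma IsAff.coord (i : ι) : IsAff fun x : ι → K => x i := by
  classical
  refine ⟨0, Pi.single i 1, fun x => ?_⟩
  rw [zero_add, Finset.sum_eq_single i]
  · simp
  · intro j _ hj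
    rw [Pi.single_eq_of_ne hj, zero_mul]
  · intro h; exact absurd (Finset.mem_univ i) h

lemma IsAff.smul {f : (ι → K) → K} (h : IsAff f) (c : K) : IsAff fun x => c * f x := by
  obtain ⟨a, u, hu⟩ := h
  refine ⟨c * a, fun i => c * u i, fun x => ?_⟩
  simp only [hu, mul_add, Finset.mul_sum, mul_assoc]

/-- affine matrix valued functions -/
def AffM {I J : Type} (F : (ι → K) → Matrix I J K) : Prop := ∀ i j, IsAff fun x => F x i j

section affm

variable {I J I' J' : Type}

lemma AffM.const (M : Matrix I J K) : AffM fun _ : ι → K => M := fun i j => IsAff.const (M i j)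

lemma AffM.smul {F : (ι → K) → Matrix I J K} (h : AffM F) (c : K) : AffM fun x => c • F x :=
  fun i j => (h i j).smul c

lemma AffM.submatrix {F : (ι → K) → Matrix I J K} (h : AffM F) (r : I' → I) (s : J' → J) :
    AffM fun x => (F x).submatrix r s := fun i j => h (r i) (s j)

lemma AffM.fromBlocks {F : (ι → K) → Matrix I J K} {G : (ι → K) → Matrix I J' K}
    {H : (ι → K) → Matrix I' J K} {P : (ι → K) → Matrix I' J' K} (hF : AffM F) (hG : AffM G)
    (hH : AffM H) (hP : AffM P) : AffM fun x => Matrix.fromBlocks (F x) (G x) (H x) (P x) := by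
  intro i j
  rcases i with i | i <;> rcases j with j | j
  · exact hF i j
  · exact hG i j
  · exact hH i j
  · exact hP i j

end affm

end subst

section bound

variable {K κ : Type} [Field K] {n : ℕ}

/-- the first matrix -/
def mA (x : In3 n → K) : Matrix (Fin n) (Fin n) K := Matrix.of fun i j => x (Sum.inl (Sum.inl (i, j)))
/-- the second matrix -/
def mB (x : In3 n → K) : Matrix (Fin n) (Fin n) K := Matrix.of fun i j => x (Sum.inl (Sum.inr (i, j)))
/-- the proposed product -/
def mC (x : In3 n → K) : Matrix (Fin n) (Fin n) K := Matrix.of fun i j => x (Sum.inr (i, j))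

lemma aff_mA : AffM (mA : (In3 n → K) → _) := fun i j => IsAff.coord _
lemma aff_mB : AffM (mB : (In3 n → K) → _) := fun i j => IsAff.coord _
lemma aff_mC : AffM (mC : (In3 n → K) → _) := fun i j => IsAff.coord _

lemma mA_trip (A B C : Matrix (Fin n) (Fin n) K) : mA (trip A B C) = A := rfl
lemma mB_trip (A B C : Matrix (Fin n) (Fin n) K) : mB (trip A B C) = B := rfl
lemma mC_trip (A B C : Matrix (Fin n) (Fin n) K) : mC (trip A B C) = C := rfl

/-- all pairs of matrices are dense -/
lemma denseFor_true [Infinite K] {D : Matrix (Fin n) (Fin n) K → Matrix (Fin n) (Fin n) K → Prop}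
    (h : ∀ A B, D A B) : DenseFor D := by
  intro p hp
  by_contra hcon
  push Not at hcon
  refine hp (MvPolynomial.funext fun x => ?_)
  rw [map_zero]
  by_contra hx
  refine hcon (Matrix.of fun i j => x (Sum.inl (i, j))) (Matrix.of fun i j => x (Sum.inr (i, j)))
    ?_ (h _ _)
  have : entries (Matrix.of fun i j => x (Sum.inl (i, j)))
      (Matrix.of fun i j => x (Sum.inr (i, j))) = x := by
    funext e
    rcases e with e | e <;> rfl
  rw [this]
  exact hx

/-- **Sets which contain the graph of the matrix product in affine coordinates.** -/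
theorem set_bound [IsAlgClosed K] [CharZero K] [Fintype κ] (hn : 0 < n) (S : Set (κ → K))
    (t : NTree K κ) (L : ℕ) (ht : ∀ x, t.Accepts x L ↔ x ∈ S) (ψ : (In3 n → K) → κ → K)
    (haff : ∀ k, IsAff fun x => ψ x k) (hψ : ∀ x, ψ x ∈ S ↔ mC x = mA x * mB x) :
    (n : ℝ) ^ omega ≤ 2 * L := by
  have : Infinite K := CharZero.infinite K
  choose c u hu using haff
  let φ : κ → K × (In3 n → K) := fun k => (c k, u k)
  have hφ : ∀ x, app φ x = ψ x := fun x => funext fun k => (hu k x).symm
  have hacc : ∀ x, (subT φ t).Accepts x L ↔ mC x = mA x * mB x := fun x => by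
    rw [subT_accepts, hφ, ht, hψ]
  refine verify_list (M := 1) (subT φ t) (denseFor_true fun A B => ⟨?_, fun _ => A * B,
    fun C hC => ⟨0, ?_⟩⟩) hn
  · rw [hacc]; rfl
  · rw [hacc] at hC; exact hC

end bound

end Pool.Agent.Q140.LIN
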