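import Pool.Agent.Q140.LIN.Sets

/-!
# Trees for identities of matrix products
-/

set_option autoImplicit false

namespace Pool.Agent.Q140.LIN

open MvPolynomial Pool.Agent.W966.Mm Pool.Agent.W966.Vf Pool.Agent.W966.Vg
  Pool.Agent.H515R2.MMR Pool.Agent.Q140.VFY Pool.Agent.Q140.HYP Matrix

section aff

variable {K ι : Type} [Field K] [Fintype ι]

lemma IsAff.add {f g : (ι → K) → K} (hf : IsAff f) (hg : IsAff g) : IsAff fun x => f x + g x := by
  obtain ⟨a, u, hu⟩ := hf
  obtain ⟨b, v, hv⟩ := hg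
  refine ⟨a + b, fun i => u i + v i, fun x => ?_⟩
  simp only [hu, hv, add_mul, Finset.sum_add_distrib]
  ring

lemma IsAff.sum {κ : Type} (s : Finset κ) {f : κ → (ι → K) → K} (hf : ∀ k, IsAff (f k)) :
    IsAff fun x => ∑ k ∈ s, f k x := by
  classical
  induction s using Finset.induction_on with
  | empty => simpa using IsAff.const (ι := ι) (0 : K)
  | insert k s hk ih =>
    simp only [Finset.sum_insert hk]
    exact (hf k).add ih

lemma IsAff.lf {f : (ι → K) → K} (hf : IsAff f) : ∃ φ : LF K ι, φ.r = 0 ∧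
    ∀ x l (g : ℕ → K), φ.val x l g = f x := by
  obtain ⟨a, u, hu⟩ := hf
  refine ⟨⟨a, u, 0⟩, rfl, fun x l g => ?_⟩
  unfold LF.val
  simp only [Algebra.algebraMap_self, RingHom.id_apply, Pi.zero_apply, zero_mul,
    Finset.sum_const_zero, add_zero, hu]

lemma AffM.mulC {I J J' : Type} [Fintype J] {F : (ι → K) → Matrix I J K} (h : AffM F)
    (M : Matrix J J' K) : AffM fun x => F x * M := fun i j => by
  simp only [Matrix.mul_apply, mul_comm _ (M _ _)]
  exact IsAff.sum _ fun k => (h i k).smul _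

lemma AffM.submatrix2 {κ : Type} [Fintype κ] {I J : Type} {F : (ι → K) → Matrix I J K}
    (h : AffM F) (G : (κ → K) → ι → K) (hG : ∀ i, IsAff fun x => G x i) :
    AffM fun x => F (G x) := fun i j => by
  obtain ⟨a, u, hu⟩ := h i j
  simp only [hu]
  exact (IsAff.const a).add (IsAff.sum _ fun k => (hG k).smul _)

end aff

section trees

variable {K ι : Type} [Field K] [Fintype ι]

/-- the tree which tests the linear combinations -/
def testAll : List (LF K ι) → NTree K ι
  | [] => .accept
  | o :: os => .test o (testAll os) .reject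

lemma testAll_acc (x : ι → K) (l L : ℕ) (g : ℕ → K) (os : List (LF K ι)) :
    (testAll os).Acc x l g L ↔ ∀ o ∈ os, o.val x l g = 0 := by
  induction os with
  | nil => simp [testAll, NTree.Acc]
  | cons o os ih =>
    show (o.val x l g = 0 ∧ (testAll os).Acc x l g L) ∨ (o.val x l g ≠ 0 ∧ False) ↔ _
    rw [ih, List.forall_mem_cons]
    tauto

/-- the tree which does the multiplications `l, …, l + k - 1` and tests the results -/
def buildL (a b : ℕ → LF K ι) (os : List (LF K ι)) : ℕ → ℕ → NTree K ι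
  | _, 0 => testAll os
  | l, k + 1 => .mul (a l) (b l) (buildL a b os (l + 1) k)

lemma buildL_acc (a b : ℕ → LF K ι) (os : List (LF K ι)) (x : ι → K) (G : ℕ → K) (M : ℕ)
    (hG : ∀ r < M, G r = (a r).val x r G * (b r).val x r G) :
    ∀ (k l : ℕ) (g : ℕ → K), l + k = M → (∀ s < l, g s = G s) →
      ((buildL a b os l k).Acc x l g k ↔ ∀ o ∈ os, o.val x M G = 0) := by
  intro k
  induction k with
  | zero =>
    intro l g hl hg
    obtain rfl : l = M := by omega
    show (testAll os).Acc x l g 0 ↔ _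
    rw [testAll_acc]
    refine forall₂_congr fun o _ => ?_
    rw [Pool.Agent.W966.Vg.LF.val_congr o x hg]
  | succ k ih =>
    intro l g hl hg
    show (0 < k + 1 ∧ (buildL a b os (l + 1) k).Acc x (l + 1)
      (Function.update g l ((a l).val x l g * (b l).val x l g)) (k + 1 - 1)) ↔ _
    rw [Nat.add_sub_cancel]
    have h1 := ih (l + 1) (Function.update g l ((a l).val x l g * (b l).val x l g)) (by omega)
      (fun s hs => by
        rcases Nat.lt_succ_iff_lt_or_eq.mp hs with h1 | rfl
        · rw [Function.update_of_ne (by omega), hg s h1]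
        · rw [Function.update_self, hG s (by omega), Pool.Agent.W966.Vg.LF.val_congr (a s) x hg,
            Pool.Agent.W966.Vg.LF.val_congr (b s) x hg])
    rw [h1]
    exact ⟨fun h => h.2, fun h => ⟨Nat.succ_pos k, h⟩⟩

end trees

section guess

variable {K ι : Type} [Field K] [Fintype ι] {m : ℕ}

/-- the inputs `y` become the first results -/
def shLF (f : LF K (ι ⊕ Fin m)) : LF K ι :=
  ⟨f.c, fun i => f.x (Sum.inl i), fun s => if h : s < m then f.x (Sum.inr ⟨s, h⟩) else f.r (s - m)⟩

lemma shLF_val (f : LF K (ι ⊕ Fin m)) (x : ι → K) (y : Fin m → K) (l : ℕ) (g g' : ℕ → K)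
    (h1 : ∀ s : Fin m, g' s = y s) (h2 : ∀ s < l, g' (m + s) = g s) :
    (shLF f).val x (m + l) g' = f.val (Sum.elim x y) l g := by
  unfold LF.val shLF
  simp only [Algebra.algebraMap_self, RingHom.id_apply, Fintype.sum_sum_type, Sum.elim_inl,
    Sum.elim_inr, Finset.sum_range_add]
  rw [Finset.sum_range (n := m)]
  have h3 : ∑ i : Fin m, (if h : (i : ℕ) < m then f.x (Sum.inr ⟨i, h⟩) else f.r (i - m)) * g' i =
      ∑ i : Fin m, f.x (Sum.inr i) * y i := Finset.sum_congr rfl fun i _ => by
    rw [dif_pos i.2, h1]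
  have h4 : ∑ i ∈ Finset.range l, (if h : m + i < m then f.x (Sum.inr ⟨m + i, h⟩) else
      f.r (m + i - m)) * g' (m + i) = ∑ i ∈ Finset.range l, f.r i * g i :=
    Finset.sum_congr rfl fun i hi => by
      rw [dif_neg (by omega), Nat.add_sub_cancel_left, h2 i (Finset.mem_range.mp hi)]
  rw [h3, h4]
  ring

/-- the shifted tree -/
def shT : NTree K (ι ⊕ Fin m) → NTree K ι
  | .accept => .accept
  | .reject => .reject
  | .mul f h next => .mul (shLF f) (shLF h) (shT next)
  | .div f h next => .div (shLF f) (shLF h) (shT next)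
  | .guess next => .guess (shT next)
  | .test f yes no => .test (shLF f) (shT yes) (shT no)
  | .choose k next => .choose k fun i => shT (next i)

lemma shT_acc (x : ι → K) (y : Fin m → K) (t : NTree K (ι ⊕ Fin m)) :
    ∀ (l : ℕ) (g g' : ℕ → K) (L : ℕ), (∀ s : Fin m, g' s = y s) → (∀ s < l, g' (m + s) = g s) →
      ((shT t).Acc x (m + l) g' L ↔ t.Acc (Sum.elim x y) l g L) := by
  have hup : ∀ (l : ℕ) (g g' : ℕ → K) (v : K), (∀ s : Fin m, g' s = y s) →
      (∀ s < l, g' (m + s) = g s) → (∀ s : Fin m, Function.update g' (m + l) v s = y s) ∧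
      ∀ s < l + 1, Function.update g' (m + l) v (m + s) = Function.update g l v s := by
    intro l g g' v h1 h2
    refine ⟨fun s => ?_, fun s hs => ?_⟩
    · rw [Function.update_of_ne (by have := s.2; omega), h1]
    · rcases Nat.lt_succ_iff_lt_or_eq.mp hs with h | rfl
      · rw [Function.update_of_ne (by omega), Function.update_of_ne (by omega), h2 s h]
      · rw [Function.update_self, Function.update_self]
  induction t with
  | accept => intro l g g' L _ _; exact Iff.rfl
  | reject => intro l g g' L _ _; exact Iff.rfl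
  | mul f h next ih =>
    intro l g g' L h1 h2
    simp only [shT, NTree.Acc, shLF_val f x y l g g' h1 h2, shLF_val h x y l g g' h1 h2]
    have h3 := hup l g g' (f.val (Sum.elim x y) l g * h.val (Sum.elim x y) l g) h1 h2
    rw [add_assoc, ih (l + 1) _ _ (L - 1) h3.1 h3.2]
  | div f h next ih =>
    intro l g g' L h1 h2
    simp only [shT, NTree.Acc, shLF_val f x y l g g' h1 h2, shLF_val h x y l g g' h1 h2]
    have h3 := hup l g g' (f.val (Sum.elim x y) l g / h.val (Sum.elim x y) l g) h1 h2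
    rw [add_assoc, ih (l + 1) _ _ (L - 1) h3.1 h3.2]
  | guess next ih =>
    intro l g g' L h1 h2
    simp only [shT, NTree.Acc]
    refine exists_congr fun v => ?_
    have h3 := hup l g g' v h1 h2
    rw [add_assoc, ih (l + 1) _ _ L h3.1 h3.2]
  | test f yes no ihy ihn =>
    intro l g g' L h1 h2
    simp only [shT, NTree.Acc, shLF_val f x y l g g' h1 h2, ihy l g g' L h1 h2,
      ihn l g g' L h1 h2]
  | choose k next ih =>
    intro l g g' L h1 h2
    simp only [shT, NTree.Acc]
    exact exists_congr fun i => ih i l g g' L h1 h2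

/-- guesses -/
def guessN : ℕ → NTree K ι → NTree K ι
  | 0, t => t
  | k + 1, t => .guess (guessN k t)

lemma guessN_acc (x : ι → K) (t : NTree K ι) (L : ℕ) : ∀ (k l : ℕ) (g : ℕ → K),
    (guessN k t).Acc x l g L ↔ ∃ g' : ℕ → K, (∀ s, s < l ∨ l + k ≤ s → g' s = g s) ∧
      t.Acc x (l + k) g' L := by
  intro k
  induction k with
  | zero =>
    intro l g
    constructor
    · intro h
      exact ⟨g, fun _ _ => rfl, h⟩
    · rintro ⟨g', h1, h2⟩
      have : g' = g := funext fun s => h1 s (by omega)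
      rw [← this]; exact h2
  | succ k ih =>
    intro l g
    show (∃ v : K, (guessN k t).Acc x (l + 1) (Function.update g l v) L) ↔ _
    simp only [ih]
    constructor
    · rintro ⟨v, g', h1, h2⟩
      refine ⟨g', fun s hs => ?_, by rwa [show l + 1 + k = l + (k + 1) by omega] at h2⟩
      rw [h1 s (by omega), Function.update_of_ne (by omega)]
    · rintro ⟨g', h1, h2⟩
      refine ⟨g' l, g', fun s hs => ?_, by rwa [show l + 1 + k = l + (k + 1) by omega]⟩
      by_cases h : s = l
      · rw [h, Function.update_self]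
      · rw [Function.update_of_ne h, h1 s (by omega)]

/-- **Guessed inputs.** -/
theorem guess_tree (t : NTree K (ι ⊕ Fin m)) (L : ℕ) : ∃ t' : NTree K ι, ∀ x : ι → K,
    t'.Accepts x L ↔ ∃ y : Fin m → K, t.Accepts (Sum.elim x y) L := by
  refine ⟨guessN m (shT t), fun x => ?_⟩
  show (guessN m (shT t)).Acc x 0 0 L ↔ _
  rw [guessN_acc, zero_add]
  constructor
  · rintro ⟨g', -, h⟩
    refine ⟨fun s => g' s, ?_⟩
    exact (shT_acc x (fun s => g' s) t 0 0 g' L (fun _ => rfl)
      fun s hs => absurd hs (Nat.not_lt_zero s)).mp h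
  · rintro ⟨y, h⟩
    refine ⟨fun s => if h : s < m then y ⟨s, h⟩ else 0, fun s hs => ?_, ?_⟩
    · show (if h : s < m then y ⟨s, h⟩ else 0) = (0 : K)
      rw [dif_neg (by omega)]
    · exact (shT_acc x y t 0 0 _ L (fun s => dif_pos s.2)
        fun s hs => absurd hs (Nat.not_lt_zero s)).mpr h

end guess

section mul

variable {ι : Type} [Fintype ι] {N r : ℕ}

lemma mul_entry (h : HasRank N r) : ∃ α β γ : Fin r → Fin N → Fin N → ℂ,
    ∀ (F G : Matrix (Fin N) (Fin N) ℂ) (i k : Fin N), (F * G) i k =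
      ∑ t, γ t k i * ((∑ p, ∑ q, α t p q * F p q) * ∑ p, ∑ q, β t p q * G p q) := by
  obtain ⟨α, β, γ, H⟩ := h
  refine ⟨α, β, γ, fun F G i k => ?_⟩
  have h1 : ∀ t : Fin r, γ t k i * ((∑ p, ∑ q, α t p q * F p q) * ∑ p, ∑ q, β t p q * G p q) =
      ∑ p, ∑ q, ∑ p', ∑ q', α t p q * β t p' q' * γ t k i * (F p q * G p' q') := by
    intro t
    rw [Finset.sum_mul, Finset.mul_sum]
    refine Finset.sum_congr rfl fun p _ => ?_
    rw [Finset.sum_mul, Finset.mul_sum]
    refine Finset.sum_congr rfl fun q _ => ?_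
    rw [Finset.mul_sum, Finset.mul_sum]
    refine Finset.sum_congr rfl fun p' _ => ?_
    rw [Finset.mul_sum, Finset.mul_sum]
    refine Finset.sum_congr rfl fun q' _ => ?_
    ring
  have h2 : ∀ k' q' : Fin N, ∀ p q : Fin N, ∑ t, α t p q * β t k' q' * γ t k i =
      if q = k' ∧ q' = k ∧ i = p then 1 else 0 := fun k' q' p q => (H p q k' q' k i).symm
  simp only [h1]
  rw [Finset.sum_comm]
  have h3 : ∀ p : Fin N, ∑ t : Fin r, ∑ q, ∑ p', ∑ q',
      α t p q * β t p' q' * γ t k i * (F p q * G p' q') =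
      ∑ q, ∑ p', ∑ q', (if q = p' ∧ q' = k ∧ i = p then 1 else 0) * (F p q * G p' q') := by
    intro p
    rw [Finset.sum_comm]
    refine Finset.sum_congr rfl fun q _ => ?_
    rw [Finset.sum_comm]
    refine Finset.sum_congr rfl fun p' _ => ?_
    rw [Finset.sum_comm]
    refine Finset.sum_congr rfl fun q' _ => ?_
    rw [← Finset.sum_mul, h2]
  simp only [h3]
  rw [Matrix.mul_apply]
  symm
  rw [Finset.sum_eq_single i]
  · refine Finset.sum_congr rfl fun j _ => ?_
    rw [Finset.sum_eq_single j, Finset.sum_eq_single k]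
    · simp
    · intro b _ hb; simp [hb]
    · simp
    · intro b _ hb; simp [hb.symm]
    · simp
  · intro b _ hb
    simp [hb.symm]
  · simp

/-- **Trees for matrix identities.** -/
theorem mul_tree (h : HasRank N r) (F G H : (ι → ℂ) → Matrix (Fin N) (Fin N) ℂ) (hF : AffM F)
    (hG : AffM G) (hH : AffM H) : ∃ t : NTree ℂ ι, ∀ x, t.Accepts x r ↔ F x * G x = H x := by
  classical
  obtain ⟨α, β, γ, hm⟩ := mul_entry h
  have ha : ∀ t : Fin r, IsAff fun x : ι → ℂ => ∑ p, ∑ q, α t p q * F x p q := fun t =>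
    IsAff.sum _ fun p => IsAff.sum _ fun q => (hF p q).smul _
  have hb : ∀ t : Fin r, IsAff fun x : ι → ℂ => ∑ p, ∑ q, β t p q * G x p q := fun t =>
    IsAff.sum _ fun p => IsAff.sum _ fun q => (hG p q).smul _
  choose A hA0 hA using fun t => (ha t).lf
  choose B hB0 hB using fun t => (hb t).lf
  choose O hO0 hO using fun p : Fin N × Fin N => ((hH p.1 p.2).smul (-1)).lf
  let a : ℕ → LF ℂ ι := fun s => if h : s < r then A ⟨s, h⟩ else ⟨0, 0, 0⟩
  let b : ℕ → LF ℂ ι := fun s => if h : s < r then B ⟨s, h⟩ else ⟨0, 0, 0⟩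
  let o : Fin N × Fin N → LF ℂ ι := fun p =>
    ⟨(O p).c, (O p).x, fun s => if h : s < r then γ ⟨s, h⟩ p.2 p.1 else 0⟩
  refine ⟨buildL a b (Finset.univ.toList.map o) 0 r, fun x => ?_⟩
  let G' : ℕ → ℂ := fun s => if h : s < r then
    (∑ p, ∑ q, α ⟨s, h⟩ p q * F x p q) * ∑ p, ∑ q, β ⟨s, h⟩ p q * G x p q else 0
  have key := buildL_acc a b (Finset.univ.toList.map o) x G' r (fun s hs => by
    simp only [G', a, b, dif_pos hs, hA, hB]) r 0 0 (by omega)
    (fun s hs => absurd hs (Nat.not_lt_zero s))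
  show (buildL a b (Finset.univ.toList.map o) 0 r).Acc x 0 0 r ↔ _
  rw [key]
  have ho : ∀ p : Fin N × Fin N, (o p).val x r G' = (F x * G x) p.1 p.2 - H x p.1 p.2 := by
    intro p
    have h1 := hO p x 0 0
    rw [hm]
    unfold LF.val at h1 ⊢
    rw [Finset.sum_range_zero, add_zero] at h1
    simp only [o]
    rw [h1, Finset.sum_range]
    simp only [Algebra.algebraMap_self, RingHom.id_apply, G', Fin.is_lt, dif_pos, Fin.eta]
    ring
  constructor
  · intro h
    ext i k
    have h1 := h (o (i, k)) (List.mem_map_of_mem (by simp))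
    rw [ho] at h1
    exact sub_eq_zero.mp h1
  · intro h o' ho'
    obtain ⟨p, -, rfl⟩ := List.mem_map.mp ho'
    rw [ho, h, sub_self]

end mul

end Pool.Agent.Q140.LIN
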